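import Pool.Agent.Y819.ZF.Stm2

/-!
# Project ZF, job ZG-OEL: list colourings of the graph itself (helper905)
-/

set_option autoImplicit false

namespace Pool.Agent.Y905.ZF

open Finset Pool.Agent.Y819.ZF Pool.Agent.Helper929 Pool.Agent.H604R2.LEC

theorem main (h1 : S_GC) (h2 : S_GME) : S_OEL := by
  classical
  intro p hp V G hR hOK
  have := hR.fin
  obtain ⟨n, ⟨e⟩⟩ := Finite.exists_equiv_fin V
  have : Fintype V := Fintype.ofEquiv _ e.symm
  set G' : SimpleGraph (Fin n) := G.comap e.symm with hG'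
  have hdeg : ∀ v : Fin n, (univ.filter fun w => G'.Adj v w).card = p - 2 := by
    intro v
    rw [← hR.reg (e.symm v), finsum_eq_sum_of_fintype]
    unfold Pool.Agent.Y819.ZF.ind
    rw [sum_boole, Nat.cast_id]
    refine card_bij (fun w _ => e.symm w) ?_ ?_ ?_
    · intro w hw
      rw [mem_filter] at hw ⊢
      exact ⟨mem_univ _, hw.2⟩
    · intro a _ b _ hab
      exact e.symm.injective hab
    · intro b hb
      rw [mem_filter] at hb
      refine ⟨e b, ?_, by simp⟩
      rw [mem_filter]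
      refine ⟨mem_univ _, ?_⟩
      show G.Adj (e.symm v) (e.symm (e b))
      rw [Equiv.symm_apply_apply]
      exact hb.2
  have hcc : cc (ZMod p) (p - 2) (gτ G') (gη G') ≠ 0 := (h2 p (p - 2) V G n e).2 (hOK n e)
  have hP : IsPGroup p (Multiplicative (ZMod 1)) := by
    intro g
    exact ⟨0, by simpa using Subsingleton.elim g 1⟩
  have hβ : ∀ u v : Fin n, (fun _ _ => 1 : Fin n → Fin n → Multiplicative (ZMod 1)) v u =
      ((fun _ _ => 1 : Fin n → Fin n → Multiplicative (ZMod 1)) u v)⁻¹ := by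
    intro u v
    simp
  have hEL := h1 p n (p - 2) G' hdeg hcc (Multiplicative (ZMod 1)) hP (fun _ _ => 1) hβ
  refine Pool.Agent.W426.LE.EL.mono G _ (fun v => (e v, 1)) ?_ ?_ (p - 2) hEL
  · intro u v huv
    exact e.injective (Prod.mk.inj huv).1
  · intro u v huv
    refine ⟨?_, ?_⟩
    · show G.Adj (e.symm (e u)) (e.symm (e v))
      rwa [Equiv.symm_apply_apply, Equiv.symm_apply_apply]
    · simp

end Pool.Agent.Y905.ZF

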